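import Pool.Agent.W23.PP.Lt4

/-!
Almost primes `2 k p + 1` for `k` in an arbitrary dense set of multipliers, with the sharp number of
exceptional primes `p`; more generally the values `a + b k` of coprime linear forms.
-/

set_option autoImplicit false

namespace Pool.Agent.Results.MP_2f88e5_nt.DenseMultipliers

/-- `|a + b k| = m s`, where `1 ≤ m ≤ (log X)^t` and `s > 1` is a product of at most `r` primes, each
at least `X^(1/8)` -/
def Rep (X t r : ℕ) (a : ℤ) (b k : ℕ) : Prop :=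
  ∃ m s : ℕ, (a + b * k).natAbs = m * s ∧ 1 ≤ m ∧ (m : ℝ) ≤ Real.log X ^ t ∧ 1 < s ∧
    s.primeFactorsList.length ≤ r ∧ ∀ q : ℕ, q.Prime → q ∣ s → (X : ℝ) ^ (1 / 8 : ℝ) ≤ q

/-- the `k ∈ A` which are admissible for `p` (`1 ≤ k < 2(p+1)`, `p ∤ k`) and such that
`2 k p + 1 = m s`, `1 ≤ m ≤ (log X)^t`, `s > 1` a product of at most five primes, each at least
`X^(1/8)` -/
def good (A : Finset ℕ) (X t p : ℕ) : Set ℕ :=
  {k : ℕ | k ∈ A ∧ 1 ≤ k ∧ k < 2 * (p + 1) ∧ ¬ p ∣ k ∧ Rep X t 5 1 (2 * p) k}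

/-- `log X / log log X` -/
noncomputable def q (X : ℕ) : ℝ := Real.log X / Real.log (Real.log X)

theorem general (g : ℝ) (r : ℕ) (hg1 : 1 ≤ g) (hg2 : g ≤ 2) (hgr : g < 9 / 20 * ((r : ℝ) - 1 / 29))
    (δ : ℝ) (hδ : 0 < δ) :
    ∃ (c C : ℝ) (t X₀ : ℕ), 0 < c ∧ ∀ X : ℕ, X₀ ≤ X → ∀ A : Finset ℕ,
      (∀ k ∈ A, 1 ≤ k ∧ k ≤ X) → δ * X ≤ A.card →
      ({L : ℤ × ℕ | Int.gcd L.1 L.2 = 1 ∧ |(L.1 : ℝ)| ≤ (X : ℝ) ^ g ∧ 1 ≤ L.2 ∧
          (L.2 : ℝ) ≤ (X : ℝ) ^ (g - 1) ∧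
          (({k : ℕ | k ∈ A ∧ Rep X t r L.1 L.2 k}.ncard : ℕ) : ℝ) < c / q X * A.card}.ncard : ℝ) ≤
        C * q X := by
  classical
  obtain ⟨c, C, t, X₁, hc, hC, H⟩ := Pool.Agent.W23.PP.intL g r hg1 hg2 hgr δ hδ
  refine ⟨c, C, t, X₁, hc, fun X hX₁ A hA hAc => ?_⟩
  set S : Set (ℤ × ℕ) := {L : ℤ × ℕ | Int.gcd L.1 L.2 = 1 ∧ |(L.1 : ℝ)| ≤ (X : ℝ) ^ g ∧ 1 ≤ L.2 ∧
    (L.2 : ℝ) ≤ (X : ℝ) ^ (g - 1) ∧
    (({k : ℕ | k ∈ A ∧ Rep X t r L.1 L.2 k}.ncard : ℕ) : ℝ) < c / q X * A.card} with hS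
  have hfin : S.Finite := by
    refine ((Set.finite_Icc (-⌈(X : ℝ) ^ g⌉) ⌈(X : ℝ) ^ g⌉).prod
      (Set.finite_Iic ⌈(X : ℝ) ^ (g - 1)⌉₊)).subset fun L hL => ?_
    obtain ⟨-, h1, -, h2, -⟩ := hL
    obtain ⟨h4, h5⟩ := abs_le.1 h1
    have h6 := Int.le_ceil ((X : ℝ) ^ g)
    refine ⟨⟨?_, ?_⟩, ?_⟩
    · have : ((-⌈(X : ℝ) ^ g⌉ : ℤ) : ℝ) ≤ L.1 := by
        push_cast
        linarith
      exact_mod_cast this
    · have : (L.1 : ℝ) ≤ (⌈(X : ℝ) ^ g⌉ : ℝ) := by linarith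
      exact_mod_cast this
    · have : (L.2 : ℝ) ≤ (⌈(X : ℝ) ^ (g - 1)⌉₊ : ℝ) := h2.trans (Nat.le_ceil _)
      rw [Set.mem_Iic]
      exact_mod_cast this
  rw [Set.ncard_eq_toFinset_card S hfin]
  refine H X hX₁ A hA hAc _ (fun L hL => ?_) (fun L hL => ?_)
  · rw [Set.Finite.mem_toFinset] at hL
    exact ⟨hL.1, hL.2.1, hL.2.2.1, hL.2.2.2.1⟩
  · rw [Set.Finite.mem_toFinset] at hL
    have h6 := hL.2.2.2.2
    have h7 : c / q X = c * (Real.log (Real.log X) / Real.log X) := by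
      unfold q
      rw [div_div_eq_mul_div, mul_div_assoc]
    rw [h7] at h6
    refine lt_of_le_of_lt ?_ h6
    rw [← Set.ncard_coe_finset]
    refine Nat.cast_le.2 (Set.ncard_le_ncard ?_ (A.finite_toSet.subset fun p hp => hp.1))
    intro k hk
    unfold Pool.Agent.W23.PP.GLf at hk
    rw [Finset.mem_coe, Finset.mem_filter] at hk
    obtain ⟨hkA, m, s, e1, e2, e3, e4, e5, e6⟩ := hk
    exact ⟨hkA, m, s, e1, e2, e3, e4, e5, fun l hl hls =>
      e6 l (Nat.mem_primeFactors.2 ⟨hl, hls, by omega⟩)⟩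

/-- With `q X = log X / log log X`:
(1) For every `δ > 0` there are `c > 0`, `C`, `t` such that for every large `X` and every set `A` of
positive integers `k ≤ X/2`, `|A| ≥ δ X`, for all but at most `C q X` primes `p` with
`X/4 < p ≤ X/2` at least `c |A| / q X` of the `k ∈ A` are admissible for `p` and such that
`2 k p + 1 = m s`, where `m ≤ (log X)^t` and `s > 1` is a product of at most five primes, each at
least `X^(1/8)`.
(2) The same, for every set `A` of positive integers `k ≤ X`, for the values `a + b k` and the coprime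
pairs `(a, b)` with `|a| ≤ X^g`, `1 ≤ b ≤ X^(g-1)`, where `1 ≤ g ≤ 2` and `s` is a product of at most
`r` primes, provided that `g < (9/20) (r - 1/29)`.
(3) For all primes `p ≤ X²/2` the number of all `k ≤ X` such that `2 k p + 1` has such a
representation is at most `C X / q X`, for every `t`, however many prime factors of `s` are allowed.
(4) The number of exceptions cannot be reduced: for every `t` and `η > 0` there is `c > 0` such that
for every large `X` and every set `H` of at most `c q X` primes `p ≤ X²/2` there is a set `A` of at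
least `(1 - η) X` positive integers `k ≤ X` such that for no `p ∈ H` and no `k ∈ A` the number
`2 k p + 1` has such a representation, however many prime factors of `s` are allowed. -/
theorem result :
    (∀ δ : ℝ, 0 < δ → ∃ (c C : ℝ) (t X₀ : ℕ), 0 < c ∧ ∀ X : ℕ, X₀ ≤ X → ∀ A : Finset ℕ,
      (∀ k ∈ A, 1 ≤ k ∧ 2 * k ≤ X) → δ * X ≤ A.card →
      ({p : ℕ | p.Prime ∧ X < 4 * p ∧ 2 * p ≤ X ∧
          ((good A X t p).ncard : ℝ) < c / q X * A.card}.ncard : ℝ) ≤ C * q X) ∧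
    (∀ (g : ℝ) (r : ℕ), 1 ≤ g → g ≤ 2 → g < 9 / 20 * ((r : ℝ) - 1 / 29) → ∀ δ : ℝ, 0 < δ →
      ∃ (c C : ℝ) (t X₀ : ℕ), 0 < c ∧ ∀ X : ℕ, X₀ ≤ X → ∀ A : Finset ℕ,
      (∀ k ∈ A, 1 ≤ k ∧ k ≤ X) → δ * X ≤ A.card →
      ({L : ℤ × ℕ | Int.gcd L.1 L.2 = 1 ∧ |(L.1 : ℝ)| ≤ (X : ℝ) ^ g ∧ 1 ≤ L.2 ∧
          (L.2 : ℝ) ≤ (X : ℝ) ^ (g - 1) ∧
          (({k : ℕ | k ∈ A ∧ Rep X t r L.1 L.2 k}.ncard : ℕ) : ℝ) < c / q X * A.card}.ncard : ℝ) ≤
        C * q X) ∧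
    (∀ t : ℕ, ∃ (C : ℝ) (X₀ : ℕ), ∀ X : ℕ, X₀ ≤ X → ∀ p : ℕ, p.Prime → 2 * p ≤ X ^ 2 →
      ({k : ℕ | 1 ≤ k ∧ k ≤ X ∧ ∃ r : ℕ, Rep X t r 1 (2 * p) k}.ncard : ℝ) ≤ C * (X / q X)) ∧
    (∀ (t : ℕ) (η : ℝ), 0 < η → ∃ (c : ℝ) (X₀ : ℕ), 0 < c ∧ ∀ X : ℕ, X₀ ≤ X → ∀ H : Finset ℕ,
      (∀ p ∈ H, p.Prime ∧ 2 * p ≤ X ^ 2) → (H.card : ℝ) ≤ c * q X →
      ∃ A : Finset ℕ, (∀ k ∈ A, 1 ≤ k ∧ k ≤ X) ∧ (1 - η) * X ≤ A.card ∧
        ∀ p ∈ H, ∀ k ∈ A, ∀ r : ℕ, ¬ Rep X t r 1 (2 * p) k) := by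
  classical
  have hval : ∀ p k : ℕ, ((1 : ℤ) + ((2 * p : ℕ) : ℤ) * k).natAbs = 2 * k * p + 1 := by
    intro p k
    rw [show (1 : ℤ) + ((2 * p : ℕ) : ℤ) * k = ((2 * k * p + 1 : ℕ) : ℤ) by push_cast; ring,
      Int.natAbs_natCast]
  have hRS : ∀ (X t r p k : ℕ), Rep X t r 1 (2 * p) k → Pool.Agent.W23.PP.RepL X t p k := by
    rintro X t r p k ⟨m, s, e1, e2, e3, e4, e5, e6⟩
    rw [hval] at e1
    exact ⟨m, s, e1, e2, e3, e4, fun l hl =>
      e6 l (Nat.prime_of_mem_primeFactors hl) (Nat.dvd_of_mem_primeFactors hl)⟩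
  refine ⟨?_, ?_, ?_, ?_⟩
  · intro δ hδ
    obtain ⟨c, C, t, X₁, hc, H⟩ := general 2 5 (by norm_num) le_rfl (by norm_num) δ hδ
    obtain ⟨X₂, hX₂3, H2⟩ := Pool.Agent.W23.PP.loglog_large
    obtain ⟨X₃, H3⟩ := Pool.Agent.W23.KS.logpow_small 1 (show (0 : ℝ) < 1 by norm_num)
      (show (0 : ℝ) < c * δ / 2 by positivity)
    refine ⟨c / 2, C, t, max X₁ (max X₂ X₃), by positivity, fun X hX A hA hAc => ?_⟩
    have hX₁ : X₁ ≤ X := (le_max_left _ _).trans hX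
    have hX₂ : X₂ ≤ X := ((le_max_left _ _).trans (le_max_right _ _)).trans hX
    have hX₃ : X₃ ≤ X := ((le_max_right _ _).trans (le_max_right _ _)).trans hX
    obtain ⟨h1, h2, h3⟩ := H2 X hX₂
    have hX0 : (0 : ℝ) < X := by exact_mod_cast (by omega : 0 < X)
    have hqL : q X ≤ Real.log X := by
      unfold q
      rw [div_le_iff₀ (by linarith)]
      nlinarith
    have hq0 : 0 < q X := by
      unfold q
      exact div_pos (by linarith) (by linarith)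
    -- the term `k = p` is negligible
    have hone : 1 ≤ c / 2 / q X * A.card := by
      have h4 := H3 X hX₃
      rw [pow_one, Real.rpow_one] at h4
      have h5 : c / 2 * (δ * X) ≤ c / 2 * A.card := mul_le_mul_of_nonneg_left hAc (by positivity)
      rw [div_mul_eq_mul_div, one_le_div hq0]
      linarith
    refine le_trans ?_ (H X hX₁ A (fun k hk => ⟨(hA k hk).1, by have := (hA k hk).2; omega⟩) hAc)
    set S : Set (ℤ × ℕ) := {L : ℤ × ℕ | Int.gcd L.1 L.2 = 1 ∧ |(L.1 : ℝ)| ≤ (X : ℝ) ^ (2 : ℝ) ∧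
      1 ≤ L.2 ∧ (L.2 : ℝ) ≤ (X : ℝ) ^ ((2 : ℝ) - 1) ∧
      (({k : ℕ | k ∈ A ∧ Rep X t 5 L.1 L.2 k}.ncard : ℕ) : ℝ) < c / q X * A.card} with hS
    have hfin : S.Finite := by
      refine ((Set.finite_Icc (-((X : ℤ) ^ 2)) ((X : ℤ) ^ 2)).prod
        (Set.finite_Iic X)).subset fun L hL => ?_
      obtain ⟨-, h4, -, h5, -⟩ := hL
      rw [Real.rpow_two] at h4
      rw [show (2 : ℝ) - 1 = 1 by norm_num, Real.rpow_one] at h5
      obtain ⟨h6, h7⟩ := abs_le.1 h4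
      exact ⟨⟨by exact_mod_cast h6, by exact_mod_cast h7⟩, by
        rw [Set.mem_Iic]
        exact_mod_cast h5⟩
    refine Nat.cast_le.2 (Set.ncard_le_ncard_of_injOn (fun p : ℕ => ((1 : ℤ), 2 * p)) ?_
      (fun a _ b _ hab => by
        simp only [Prod.mk.injEq] at hab
        omega) hfin)
    rintro p ⟨hp, hp1, hp2, hp3⟩
    refine ⟨by simp, ?_, ?_, ?_, ?_⟩
    · push_cast
      rw [abs_one, Real.rpow_two]
      have : (1 : ℝ) ≤ X := by exact_mod_cast (by omega : 1 ≤ X)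
      nlinarith
    · have := hp.pos
      show 1 ≤ 2 * p
      omega
    · rw [show (2 : ℝ) - 1 = 1 by norm_num, Real.rpow_one]
      show ((2 * p : ℕ) : ℝ) ≤ X
      exact_mod_cast hp2
    · have hsub : {k : ℕ | k ∈ A ∧ Rep X t 5 1 (2 * p) k} ⊆ good A X t p ∪ {p} := by
        rintro k ⟨hkA, hkR⟩
        obtain ⟨hk1, hk2⟩ := hA k hkA
        by_cases hkp : k = p
        · right
          exact hkp
        · left
          refine ⟨hkA, hk1, by omega, ?_, hkR⟩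
          rintro ⟨j, rfl⟩
          have hj1 : j ≠ 0 := by
            rintro rfl
            omega
          have hj2 : j ≠ 1 := by
            rintro rfl
            exact hkp (mul_one p)
          have hj3 : 2 ≤ j := by omega
          nlinarith
      have hgfin : (good A X t p).Finite := A.finite_toSet.subset fun k hk => hk.1
      have h4 : ({k : ℕ | k ∈ A ∧ Rep X t 5 1 (2 * p) k}).ncard ≤ (good A X t p).ncard + 1 := by
        refine (Set.ncard_le_ncard hsub (hgfin.union (Set.finite_singleton p))).trans ?_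
        refine (Set.ncard_union_le _ _).trans ?_
        rw [Set.ncard_singleton]
      have h5 : (({k : ℕ | k ∈ A ∧ Rep X t 5 1 (2 * p) k}.ncard : ℕ) : ℝ) ≤
          (good A X t p).ncard + 1 := by exact_mod_cast h4
      show (({k : ℕ | k ∈ A ∧ Rep X t 5 1 (2 * p) k}.ncard : ℕ) : ℝ) < c / q X * A.card
      have h6 : c / q X * A.card = c / 2 / q X * A.card + c / 2 / q X * A.card := by ring
      rw [h6]
      linarith
  · intro g r hg1 hg2 hgr δ hδ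
    exact general g r hg1 hg2 hgr δ hδ
  · intro t
    obtain ⟨C, X₀, hC, H⟩ := Pool.Agent.W23.PP.upL t
    refine ⟨C, X₀, fun X hX p hp hpX => ?_⟩
    have h4 := H X hX p hp hpX
    have h5 : C * (X / q X) = C * (Real.log (Real.log X) / Real.log X) * X := by
      unfold q
      rw [div_div_eq_mul_div]
      ring
    rw [h5]
    refine le_trans ?_ h4
    rw [← Set.ncard_coe_finset]
    refine Nat.cast_le.2 (Set.ncard_le_ncard ?_ (Finset.finite_toSet _))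
    rintro k ⟨hk1, hk2, r, hr⟩
    rw [Finset.mem_coe, Finset.mem_filter, Finset.mem_Icc]
    exact ⟨⟨hk1, hk2⟩, hRS X t r p k hr⟩
  · intro t η hη
    obtain ⟨c, X₀, hc, H⟩ := Pool.Agent.W23.PP.shL t η hη
    refine ⟨c, X₀, hc, fun X hX K hK hKc => ?_⟩
    obtain ⟨A, hA1, hA2, hA3⟩ := H X hX K hK hKc
    exact ⟨A, hA1, hA2, fun p hp k hk r hr => hA3 p hp k hk (hRS X t r p k hr)⟩

end Pool.Agent.Results.MP_2f88e5_nt.DenseMultipliers
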